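import Pool.Agent.Helper85.ES.StI1
import Pool.Agent.Helper65.RL.LNX

/-!
# Project ES (MP_cb927e_an), part I, module ONB: middle range, many directions and crossings (numbers)
-/

set_option autoImplicit false

open MeasureTheory Set Filter Topology
open scoped ENNReal RealInnerProductSpace

namespace Pool.Agent.Helper94.ES

open Pool.Agent.Helper85.ES Pool.Agent.Helper20.RG Pool.Agent.Helper20.RL
open Pool.Agent.Helper68.EP (Fb DQ3 Par Dat Sy q0 q1 DD Fo Rs)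
open Pool.Agent.Helper61.EP (Nn D8 trS dat Yc)
open Pool.Agent.Helper68.ES (ag Eg th Rc hn Crit cr Lw)
open Pool.Agent.Helper68.LM (Pl BB Bd Av HL ft fm DQ)
open Pool.Agent.Helper65.RL (X X_pos X_add X_mono X_zero X_one one_le_X X_neg X_def_neg poly fin_step one_le_ns)

theorem nnp {u : ℕ} {δ η m₁ : ℝ} (h : Nn u δ η m₁) : 0 < m₁ := by
  obtain ⟨h0, h1, h2, h3⟩ := h
  have h4 : 0 < (2 : ℝ) ^ (-(δ * u)) := Real.rpow_pos_of_pos (by norm_num) _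
  exact (pos_iff_pos_of_mul_pos (h4.trans_le h2)).mpr h0

theorem nni {u : ℕ} {δ η m₁ : ℝ} (h : Nn u δ η m₁) : 1 / (m₁ * η) ≤ X u δ := by
  have hm := nnp h
  obtain ⟨h0, h1, h2, h3⟩ := h
  rw [X_def_neg, X_neg] at h2
  have hX := X_pos u δ
  rw [div_le_iff₀ (by positivity)]
  calc (1 : ℝ) = X u δ * (X u δ)⁻¹ := (mul_inv_cancel₀ hX.ne').symm
    _ ≤ X u δ * (m₁ * η) := mul_le_mul_of_nonneg_left h2 hX.le

theorem sm_p {p s e : ℝ} (h : Sm p s e) : 13 / 10 < p := by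
  obtain ⟨h1, h2, h3, -⟩ := h
  nlinarith

theorem two_b {u b : ℕ} {t : ℝ} (h : (b : ℝ) ≤ t * u) : (2 : ℝ) ^ b ≤ X u t := by
  unfold X
  rw [← Real.rpow_natCast]
  exact Real.rpow_le_rpow_of_exponent_le (by norm_num) h

theorem d8_eq (s : ℝ) (u : ℕ) : 2 ^ u * D8 s u = 8 * X u (1 - s) := by
  unfold D8
  rw [X_def_neg, ← X_one, show (1 - s) = 1 + -s by ring, X_add]
  ring

theorem x3 (u : ℕ) (a b c : ℝ) : X u (a + b + c) = X u a * X u b * X u c := by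
  rw [X_add u (a + b) c, X_add u a b]

theorem x5 (u : ℕ) (a b c d : ℝ) : X u (a + (b + b) + c + d) = X u a * X u b ^ 2 * X u c * X u d := by
  rw [X_add u (a + (b + b) + c) d, X_add u (a + (b + b)) c, X_add u a (b + b), X_add u b b]
  ring

theorem hONB : Pool.Agent.Helper85.ES.StONB := by
  intro A p s e C₄ hA hSm hC₄
  have hp13 := sm_p hSm
  obtain ⟨hp1, hp2, hp3, he0, he1, hs1, hs2⟩ := hSm
  have hpe : (12 : ℝ) / 10 < p := by linarith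
  set P₁ : ℝ := 10 ^ 6 * 42 with hP₁
  set P₂ : ℝ := C₄ * (42 * 86016) * 10 ^ 6 with hP₂
  obtain ⟨C, ε, hC, hε, h⟩ := fin_step (q := p) (e := 12 / 10) (P₀ := P₁ + P₂) 6 hpe (by positivity)
  refine ⟨C, ε, hC, hε, ?_⟩
  intro δ u b η m₁ hδ hδ0 hu hN hb h200
  refine h u _ ?_
  have hu' : (1 : ℝ) ≤ u := by exact_mod_cast hu
  have hm := nnp hN
  have h0 := hN.1
  have hi : 1 / (m₁ * η) ≤ X u (1 / 100) := (nni hN).trans (X_mono u hδ0)
  have hb2 := two_b hb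
  have hn1 : 1 ≤ ns u b A p := one_le_ns hA
  set n₁ := ns u b A p with hn₁
  have hX10 := X_pos u (1 - s)
  have hT : 10752 * 2 ^ u * D8 s u / η = 86016 * X u (1 - s) / η := by
    rw [mul_assoc, d8_eq]; ring
  rw [hT]
  have hX12 := X_pos u (12 / 10)
  have hb20 : (0 : ℝ) < 2 ^ b := by positivity
  have h56 : (u : ℝ) ^ 5 ≤ (u : ℝ) ^ 6 := pow_le_pow_right₀ hu' (by norm_num)
  -- first term
  have hT1 : (1 / 2) ^ (16 * u) / (86016 * X u (1 - s) / η) * (42 / η) * (10 ^ 6 * (u : ℝ) ^ 5 * 2 ^ b) *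
      (2 : ℝ) ^ u ≤ P₁ * (u : ℝ) ^ 6 * X u (12 / 10) := by
    have h1 : ((1 : ℝ) / 2) ^ (16 * u) = X u (-16) := by
      unfold X
      rw [one_div, inv_pow, ← Real.rpow_natCast, ← Real.rpow_neg (by norm_num)]
      congr 1
      push_cast
      ring
    have h2 : (1 / 2) ^ (16 * u) / (86016 * X u (1 - s) / η) * (42 / η) ≤ 42 * X u (-16 + (s - 1)) := by
      rw [h1]
      have e1 : X u (-16) / (86016 * X u (1 - s) / η) * (42 / η) =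
          42 / 86016 * (X u (-16) / X u (1 - s)) := by field_simp
      have e2 : X u (-16) / X u (1 - s) = X u (-16 + (s - 1)) := by
        rw [div_eq_iff hX10.ne', ← X_add]; congr 1; ring
      rw [e1, e2]
      have := X_pos u (-16 + (s - 1))
      nlinarith
    have h3 := X_pos u (-16 + (s - 1))
    rw [← X_one u]
    calc (1 / 2) ^ (16 * u) / (86016 * X u (1 - s) / η) * (42 / η) * (10 ^ 6 * (u : ℝ) ^ 5 * 2 ^ b) * X u 1
        ≤ 42 * X u (-16 + (s - 1)) * (10 ^ 6 * (u : ℝ) ^ 6 * X u (p - 1 + e / 100)) * X u 1 := by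
          have := X_pos u 1
          gcongr
      _ = P₁ * (u : ℝ) ^ 6 * X u (-16 + (s - 1) + (p - 1 + e / 100) + 1) := by
          rw [x3, hP₁]
          ring
      _ ≤ P₁ * (u : ℝ) ^ 6 * X u (12 / 10) := by
          have : X u (-16 + (s - 1) + (p - 1 + e / 100) + 1) ≤ X u (12 / 10) := X_mono u (by linarith)
          gcongr
  -- second term
  have hT2 : u * C₄ * n₁ * (86016 * X u (1 - s) / η) / m₁ ^ 3 * (42 / η) * (10 ^ 6 * (u : ℝ) ^ 5 * 2 ^ b) *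
      (2 : ℝ) ^ u ≤ P₂ * (u : ℝ) ^ 6 * X u (12 / 10) := by
    have e2 : u * C₄ * n₁ * (86016 * X u (1 - s) / η) / m₁ ^ 3 * (42 / η) * (10 ^ 6 * (u : ℝ) ^ 5 * 2 ^ b) *
        (2 : ℝ) ^ u = C₄ * (42 * 86016) * 10 ^ 6 * (u : ℝ) ^ 6 *
          (X u (1 - s) * (n₁ / m₁) * (1 / (m₁ * η)) ^ 2 * 2 ^ b * (2 : ℝ) ^ u) := by
      field_simp
    rw [e2, ← hP₂, ← X_one u]
    have h11 : (1 / (m₁ * η)) ^ 2 ≤ X u (1 / 100) ^ 2 := pow_le_pow_left₀ (by positivity) hi 2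
    have h12 : n₁ / m₁ ≤ 1 := by rw [div_le_one hm]; linarith
    have h13 := X_pos u 1
    have h14 := X_pos u (1 / 100)
    calc P₂ * (u : ℝ) ^ 6 * (X u (1 - s) * (n₁ / m₁) * (1 / (m₁ * η)) ^ 2 * 2 ^ b * X u 1)
        ≤ P₂ * (u : ℝ) ^ 6 * (X u (1 - s) * 1 * X u (1 / 100) ^ 2 * X u (p - 1 + e / 100) * X u 1) := by
          gcongr
      _ = P₂ * (u : ℝ) ^ 6 * X u (1 - s + (1 / 100 + 1 / 100) + (p - 1 + e / 100) + 1) := by
          rw [x5, mul_one]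
      _ ≤ P₂ * (u : ℝ) ^ 6 * X u (12 / 10) := by
          have : X u (1 - s + (1 / 100 + 1 / 100) + (p - 1 + e / 100) + 1) ≤ X u (12 / 10) :=
            X_mono u (by linarith)
          gcongr
  calc ((1 / 2) ^ (16 * u) / (86016 * X u (1 - s) / η) +
      u * C₄ * n₁ * (86016 * X u (1 - s) / η) / m₁ ^ 3) * (42 / η) *
      (10 ^ 6 * (u : ℝ) ^ 5 * 2 ^ b) * (2 : ℝ) ^ u
      = (1 / 2) ^ (16 * u) / (86016 * X u (1 - s) / η) * (42 / η) * (10 ^ 6 * (u : ℝ) ^ 5 * 2 ^ b) *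
        (2 : ℝ) ^ u + u * C₄ * n₁ * (86016 * X u (1 - s) / η) / m₁ ^ 3 * (42 / η) *
        (10 ^ 6 * (u : ℝ) ^ 5 * 2 ^ b) * (2 : ℝ) ^ u := by ring
    _ ≤ P₁ * (u : ℝ) ^ 6 * X u (12 / 10) + P₂ * (u : ℝ) ^ 6 * X u (12 / 10) := add_le_add hT1 hT2
    _ = (P₁ + P₂) * (u : ℝ) ^ 6 * X u (12 / 10) := by ring

theorem hONX : Pool.Agent.Helper85.ES.StONX := by
  intro p s e C₀ hSm hC₀
  have hp13 := sm_p hSm
  obtain ⟨hp1, hp2, hp3, he0, he1, hs1, hs2⟩ := hSm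
  have hpe : (12 : ℝ) / 10 < p := by linarith
  obtain ⟨C, ε, hC, hε, h⟩ := fin_step (q := p) (e := 12 / 10) (P₀ := 8 * 10 ^ 6 * C₀) 5 hpe (by positivity)
  refine ⟨C, ε, hC, hε, ?_⟩
  intro δ u b η m₁ hδ hδ0 hu hN hb
  refine h u _ ?_
  have hm := nnp hN
  have h0 := hN.1
  have hi : 1 / (m₁ * η) ≤ X u (1 / 100) := (nni hN).trans (X_mono u hδ0)
  have hb2 := two_b hb
  have hX10 := X_pos u (1 - s)
  have hb20 : (0 : ℝ) < 2 ^ b := by positivity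
  have h11 : (1 / (m₁ * η)) ^ 2 ≤ X u (1 / 100) ^ 2 := pow_le_pow_left₀ (by positivity) hi 2
  have h13 := X_pos u 1
  have h14 := X_pos u (1 / 100)
  have e2 : C₀ * 2 ^ u * D8 s u / (η ^ 2 * m₁ ^ 2) * (10 ^ 6 * (u : ℝ) ^ 5 * 2 ^ b) * (2 : ℝ) ^ u =
      8 * 10 ^ 6 * C₀ * (u : ℝ) ^ 5 * (X u (1 - s) * (1 / (m₁ * η)) ^ 2 * 2 ^ b * X u 1) := by
    rw [mul_assoc C₀, d8_eq, X_one]
    field_simp
  rw [e2]
  calc 8 * 10 ^ 6 * C₀ * (u : ℝ) ^ 5 * (X u (1 - s) * (1 / (m₁ * η)) ^ 2 * 2 ^ b * X u 1)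
      ≤ 8 * 10 ^ 6 * C₀ * (u : ℝ) ^ 5 * (X u (1 - s) * X u (1 / 100) ^ 2 * X u (p - 1 + e / 100) * X u 1) := by
        gcongr
    _ = 8 * 10 ^ 6 * C₀ * (u : ℝ) ^ 5 * X u (1 - s + (1 / 100 + 1 / 100) + (p - 1 + e / 100) + 1) := by
        rw [x5]
    _ ≤ 8 * 10 ^ 6 * C₀ * (u : ℝ) ^ 5 * X u (12 / 10) := by
        have : X u (1 - s + (1 / 100 + 1 / 100) + (p - 1 + e / 100) + 1) ≤ X u (12 / 10) :=
          X_mono u (by linarith)
        gcongr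

end Pool.Agent.Helper94.ES
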