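import Pool.Agent.Helper68.ES.St2

/-!
# Project ES (MP_cb927e_an), module TRU: truncation of the charge
-/

set_option autoImplicit false

open MeasureTheory Set Filter Topology
open scoped ENNReal RealInnerProductSpace

namespace Pool.Agent.Helper94.ES

open Pool.Agent.Helper68.ES Pool.Agent.Helper68.EP Pool.Agent.Helper20.RG
open Pool.Agent.Helper20.RL (RQ Rich BM Fml Hit)
open Pool.Agent.Helper68.LM (Pl BB Bd Av HL ft fm DQ)

/-- the constant of the truncation -/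
noncomputable def Kc (C₀ : ℝ) : ℝ := (4 / (1 - ((2 : ℝ) ^ (1 / C₀))⁻¹)) ^ C₀

/-- one dyadic level -/
theorem level {α : Type*} [MeasurableSpace α] (μ : Measure α) (f : α → ℝ≥0∞) (hf : Measurable f)
    (hI : ∫⁻ z, f z ∂μ ≠ ∞) (N₀ C₀ B s lam : ℝ) (hN : 0 < N₀) (hC : 1 ≤ C₀) (hB : 1 ≤ B) (hs : 1 < s)
    (hsC : s ^ C₀ = 2) (a : ℕ) (hlam : lam = 2 ^ a * (B ^ C₀ * N₀))
    (h : ∀ lam Λ₁ : ℝ, 0 < lam → 1 ≤ Λ₁ → ∀ H : Set α, MeasurableSet H → (∀ z ∈ H, ENNReal.ofReal lam ≤ f z) →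
      0 < μ H → ∫⁻ z, f z ∂μ ≤ ENNReal.ofReal (Λ₁ * lam) * μ H → lam ≤ N₀ * Λ₁ ^ C₀) :
    ∫⁻ z in {z | ENNReal.ofReal lam < f z ∧ f z ≤ ENNReal.ofReal (2 * lam)}, f z ∂μ ≤
      ENNReal.ofReal (2 * (∫⁻ z, f z ∂μ).toReal / B * (s⁻¹) ^ a) := by
  have hB0 : 0 < B := lt_of_lt_of_le one_pos hB
  have hBC : 0 < B ^ C₀ := Real.rpow_pos_of_pos hB0 _
  have hl : 0 < lam := by rw [hlam]; positivity
  set H : Set α := {z | ENNReal.ofReal lam < f z ∧ f z ≤ ENNReal.ofReal (2 * lam)} with hH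
  have hHm : MeasurableSet H := (measurableSet_lt measurable_const hf).inter (measurableSet_le hf measurable_const)
  set I : ℝ≥0∞ := ∫⁻ z, f z ∂μ with hIdef
  by_cases hv : μ H = 0
  · rw [Measure.restrict_eq_zero.mpr hv]; simp
  have hv0 : 0 < μ H := pos_iff_ne_zero.mpr hv
  have hlow : ENNReal.ofReal lam * μ H ≤ I := by
    calc ENNReal.ofReal lam * μ H = ∫⁻ z in H, ENNReal.ofReal lam ∂μ := by
          rw [lintegral_const, Measure.restrict_apply_univ]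
      _ ≤ ∫⁻ z in H, f z ∂μ := setLIntegral_mono hf (fun z hz => hz.1.le)
      _ ≤ I := setLIntegral_le_lintegral _ _
  have hvf : μ H ≠ ∞ := by
    intro ht
    rw [ht, ENNReal.mul_top (by simpa using hl)] at hlow
    exact hI (top_le_iff.mp hlow)
  have hvr : 0 < (μ H).toReal := ENNReal.toReal_pos hv hvf
  have hlow' : lam * (μ H).toReal ≤ I.toReal := by
    have := ENNReal.toReal_mono hI hlow
    rwa [ENNReal.toReal_mul, ENNReal.toReal_ofReal hl.le] at this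
  have hI0 : 0 < I.toReal := lt_of_lt_of_le (mul_pos hl hvr) hlow'
  set Λ : ℝ := I.toReal / (lam * (μ H).toReal) with hΛ
  have hlv : 0 < lam * (μ H).toReal := mul_pos hl hvr
  have hΛ1 : 1 ≤ Λ := by rw [hΛ, le_div_iff₀ hlv]; linarith
  have key := h lam Λ hl hΛ1 H hHm (fun z hz => hz.1.le) hv0 (by
    have e1 : Λ * lam = I.toReal / (μ H).toReal := by
      rw [hΛ]; field_simp
    rw [e1]
    nth_rewrite 2 [← ENNReal.ofReal_toReal hvf]
    rw [← ENNReal.ofReal_mul (by positivity), div_mul_cancel₀ _ hvr.ne', ENNReal.ofReal_toReal hI])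
  -- the lower bound for Λ
  have hΛ2 : B * s ^ a ≤ Λ := by
    by_contra hc
    push Not at hc
    have h1 : Λ ^ C₀ < (B * s ^ a) ^ C₀ := Real.rpow_lt_rpow (by linarith) hc (by linarith)
    have h2 : (B * s ^ a) ^ C₀ = B ^ C₀ * 2 ^ a := by
      rw [Real.mul_rpow hB0.le (by positivity)]
      congr 1
      rw [← Real.rpow_natCast s a, ← Real.rpow_mul (by linarith), mul_comm, Real.rpow_mul (by linarith), hsC,
        Real.rpow_natCast]
    rw [h2] at h1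
    have h3 : N₀ * Λ ^ C₀ < N₀ * (B ^ C₀ * 2 ^ a) := mul_lt_mul_of_pos_left h1 hN
    rw [hlam] at key
    linarith
  have hup : ∫⁻ z in H, f z ∂μ ≤ ENNReal.ofReal (2 * lam) * μ H := by
    calc ∫⁻ z in H, f z ∂μ ≤ ∫⁻ z in H, ENNReal.ofReal (2 * lam) ∂μ :=
          setLIntegral_mono measurable_const (fun z hz => hz.2)
      _ = ENNReal.ofReal (2 * lam) * μ H := by
          rw [lintegral_const, Measure.restrict_apply_univ]
  refine hup.trans ?_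
  nth_rewrite 1 [← ENNReal.ofReal_toReal hvf]
  rw [← ENNReal.ofReal_mul (by positivity)]
  apply ENNReal.ofReal_le_ofReal
  have hs0 : 0 < s := by linarith
  have e2 : lam * (μ H).toReal = I.toReal / Λ := by
    rw [hΛ]; field_simp
  have e3 : I.toReal / Λ ≤ I.toReal / (B * s ^ a) :=
    div_le_div_of_nonneg_left hI0.le (by positivity) hΛ2
  calc 2 * lam * (μ H).toReal = 2 * (lam * (μ H).toReal) := by ring
    _ ≤ 2 * (I.toReal / (B * s ^ a)) := by rw [e2]; linarith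
    _ = 2 * I.toReal / B * (s⁻¹) ^ a := by
        rw [inv_pow]; field_simp

/-- the abstract truncation lemma -/
theorem trunc {α : Type*} [MeasurableSpace α] (μ : Measure α) (f : α → ℝ≥0∞) (hf : Measurable f)
    (hfin : ∀ z, f z ≠ ∞) (hI : ∫⁻ z, f z ∂μ ≠ ∞) (N₀ C₀ : ℝ) (hN : 0 < N₀) (hC : 1 ≤ C₀)
    (h : ∀ lam Λ₁ : ℝ, 0 < lam → 1 ≤ Λ₁ → ∀ H : Set α, MeasurableSet H → (∀ z ∈ H, ENNReal.ofReal lam ≤ f z) →
      0 < μ H → ∫⁻ z, f z ∂μ ≤ ENNReal.ofReal (Λ₁ * lam) * μ H → lam ≤ N₀ * Λ₁ ^ C₀) :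
    1 ≤ Kc C₀ ∧ ∫⁻ z, f z ∂μ ≤ 2 * ∫⁻ z in {z | f z ≤ ENNReal.ofReal (Kc C₀ * N₀)}, f z ∂μ := by
  set s : ℝ := (2 : ℝ) ^ (1 / C₀) with hs
  have hC0 : 0 < C₀ := by linarith
  have hs1 : 1 < s := by
    rw [hs]; exact Real.one_lt_rpow (by norm_num) (by positivity)
  have hsC : s ^ C₀ = 2 := by
    rw [hs, ← Real.rpow_mul (by norm_num), one_div, inv_mul_cancel₀ hC0.ne', Real.rpow_one]
  have hr1 : s⁻¹ < 1 := inv_lt_one_of_one_lt₀ hs1
  have hr0 : 0 < s⁻¹ := by positivity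
  set B : ℝ := 4 / (1 - s⁻¹) with hB
  have hd : 0 < 1 - s⁻¹ := by linarith
  have hB1 : 1 ≤ B := by
    rw [hB, le_div_iff₀ hd]; linarith
  have hB0 : 0 < B := by linarith
  have hKc : Kc C₀ = B ^ C₀ := rfl
  have hK1 : 1 ≤ Kc C₀ := by
    rw [hKc]; exact Real.one_le_rpow hB1 hC0.le
  refine ⟨hK1, ?_⟩
  set I : ℝ≥0∞ := ∫⁻ z, f z ∂μ with hIdef
  set ρ : ℝ := Kc C₀ * N₀ with hρ
  have hρ0 : 0 < ρ := by positivity
  set Hs : ℕ → Set α := fun a => {z | ENNReal.ofReal (2 ^ a * ρ) < f z ∧ f z ≤ ENNReal.ofReal (2 * (2 ^ a * ρ))}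
    with hHs
  have hcov : {z | f z ≤ ENNReal.ofReal ρ}ᶜ ⊆ ⋃ a, Hs a := by
    intro z hz
    have hz' : ENNReal.ofReal ρ < f z := by
      simpa using hz
    have hex : ∃ a : ℕ, f z ≤ ENNReal.ofReal (2 * (2 ^ a * ρ)) := by
      obtain ⟨a, ha⟩ := pow_unbounded_of_one_lt ((f z).toReal / ρ) (by norm_num : (1 : ℝ) < 2)
      refine ⟨a, ?_⟩
      rw [← ENNReal.ofReal_toReal (hfin z)]
      apply ENNReal.ofReal_le_ofReal
      rw [div_lt_iff₀ hρ0] at ha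
      have : 0 < 2 ^ a * ρ := by positivity
      linarith
    classical
    refine mem_iUnion.mpr ⟨Nat.find hex, ?_, Nat.find_spec hex⟩
    rcases hn : Nat.find hex with _ | m
    · simpa using hz'
    · have := Nat.find_min hex (m := m) (by omega)
      push Not at this
      calc ENNReal.ofReal (2 ^ (m + 1) * ρ) = ENNReal.ofReal (2 * (2 ^ m * ρ)) := by
            congr 1; ring
        _ < f z := this
  have hlev : ∀ a : ℕ, ∫⁻ z in Hs a, f z ∂μ ≤ ENNReal.ofReal (2 * I.toReal / B * (s⁻¹) ^ a) := by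
    intro a
    exact level μ f hf hI N₀ C₀ B s (2 ^ a * ρ) hN hC hB1 hs1 hsC a (by rw [hρ, hKc]) h
  have hsum : ∫⁻ z in {z | f z ≤ ENNReal.ofReal ρ}ᶜ, f z ∂μ ≤ I / 2 := by
    calc ∫⁻ z in {z | f z ≤ ENNReal.ofReal ρ}ᶜ, f z ∂μ ≤ ∫⁻ z in ⋃ a, Hs a, f z ∂μ :=
          lintegral_mono_set hcov
      _ ≤ ∑' a, ∫⁻ z in Hs a, f z ∂μ := lintegral_iUnion_le _ _
      _ ≤ ∑' a : ℕ, ENNReal.ofReal (2 * I.toReal / B * (s⁻¹) ^ a) := ENNReal.tsum_le_tsum hlev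
      _ = ENNReal.ofReal (∑' a : ℕ, 2 * I.toReal / B * (s⁻¹) ^ a) := by
          rw [ENNReal.ofReal_tsum_of_nonneg]
          · intro a; positivity
          · exact (summable_geometric_of_lt_one hr0.le hr1).mul_left _
      _ = ENNReal.ofReal (I.toReal / 2) := by
          congr 1
          rw [tsum_mul_left, tsum_geometric_of_lt_one hr0.le hr1, hB]
          generalize 1 - s⁻¹ = d at hd
          field_simp
          ring
      _ = I / 2 := by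
          rw [ENNReal.ofReal_div_of_pos (by norm_num), ENNReal.ofReal_toReal hI]
          simp
  have hms : MeasurableSet {z | f z ≤ ENNReal.ofReal ρ} := measurableSet_le hf measurable_const
  have hsplit : I = ∫⁻ z in {z | f z ≤ ENNReal.ofReal ρ}, f z ∂μ + ∫⁻ z in {z | f z ≤ ENNReal.ofReal ρ}ᶜ, f z ∂μ :=
    (lintegral_add_compl f hms).symm
  have hhalf : I / 2 ≤ ∫⁻ z in {z | f z ≤ ENNReal.ofReal ρ}, f z ∂μ := by
    have h1 : I / 2 + I / 2 ≤ ∫⁻ z in {z | f z ≤ ENNReal.ofReal ρ}, f z ∂μ + I / 2 := by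
      rw [ENNReal.add_halves]
      calc I = _ := hsplit
        _ ≤ _ := by gcongr
    exact (ENNReal.add_le_add_iff_right (ENNReal.div_ne_top hI (by norm_num))).mp h1
  calc I = 2 * (I / 2) := by
        rw [ENNReal.mul_div_cancel (by norm_num) (by norm_num)]
    _ ≤ _ := by gcongr

/-- TRU -/
theorem hTRU (hSUP : StSUP) (hTON : StTON) : Pool.Agent.Helper68.ES.StTRU := by
  intro p hp1 hp2 hp3
  obtain ⟨δ₀, c₂, e₀, hδ₀, hc₂, hc₂1, he₀, hT⟩ := hTON p hp1 hp2 hp3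
  have hpp : 0 < (p - 1) / 2 := by linarith
  refine ⟨δ₀, c₂, min e₀ ((p - 1) / 2), hδ₀, hc₂, hc₂1, lt_min he₀ hpp, ?_⟩
  intro A CH C₁ c δ hA hCH hC₁ hc hc1 hδ hδ1
  obtain ⟨u₁, C₀, hC₀, hM⟩ := hT A CH C₁ c δ hA hCH hC₁ hc hc1 hδ hδ1
  obtain ⟨n₀, hn₀⟩ := exists_nat_ge (2 / ((p - 1) / 2))
  have hKc1 : 1 ≤ Kc C₀ := by
    unfold Kc
    have hC0 : 0 < C₀ := by linarith
    have hs1 : 1 < (2 : ℝ) ^ (1 / C₀) := Real.one_lt_rpow (by norm_num) (by positivity)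
    have hr1 : ((2 : ℝ) ^ (1 / C₀))⁻¹ < 1 := inv_lt_one_of_one_lt₀ hs1
    have hr0 : 0 < ((2 : ℝ) ^ (1 / C₀))⁻¹ := by positivity
    apply Real.one_le_rpow _ hC0.le
    rw [le_div_iff₀ (by linarith)]; linarith
  refine ⟨max u₁ n₀, Kc C₀ * C₀, one_le_mul_of_one_le_of_one_le hKc1 hC₀, ?_⟩
  intro R Y β u q i J sl fl D al E ω hu hcfg hcls hchg hD hE hal hal1 hRY
  have hu1 : u₁ ≤ u := le_trans (le_max_left _ _) hu
  have hu2 : n₀ ≤ u := le_trans (le_max_right _ _) hu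
  have hcfg' : Cfg p e₀ R Y β u q i :=
    ⟨hcfg.hq, hcfg.hi, hcfg.adm.trans (mul_le_mul_of_nonneg_right (min_le_left _ _) (Nat.cast_nonneg u))⟩
  have hq : 1 ≤ q := by
    have h1 := hcfg.hq
    have h2 := hcfg.adm
    have h3 : sz R Y β ≤ (p - 1) / 2 * u :=
      h2.trans (mul_le_mul_of_nonneg_right (min_le_right _ _) (Nat.cast_nonneg u))
    have h4 : |(R : ℝ)| ≤ sz R Y β := by
      unfold sz
      linarith [abs_nonneg (Y : ℝ), abs_nonneg (β : ℝ)]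
    have h5 : -|(R : ℝ)| ≤ R := neg_abs_le _
    have h6 : (p - 1) * u < ⌊(p - 1) * u⌋ + 1 := Int.lt_floor_add_one _
    have h7 : 2 ≤ (p - 1) / 2 * u := by
      have : (n₀ : ℝ) ≤ u := by exact_mod_cast hu2
      rw [div_le_iff₀ hpp] at hn₀
      nlinarith
    have h8 : ((q : ℤ) : ℝ) = (⌊(p - 1) * (u : ℝ)⌋ : ℝ) + R := by rw [h1]; push_cast; ring
    have h9 : (0 : ℝ) < q := by
      have : ((q : ℤ) : ℝ) = (q : ℝ) := by simp
      rw [this] at h8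
      nlinarith
    exact_mod_cast h9
  have hth : 0 < th i := by unfold th; positivity
  have hmb : 0 < mb i β := by unfold mb; positivity
  obtain ⟨hb, hsupp, hmeas, hint⟩ := hSUP p CH E u q J sl fl D (th i) (mb i β) ω hchg hE hq hD hth hmb
  have hnn : 0 < nn c δ R Y β := lt_of_lt_of_le one_pos (le_max_left _ _)
  have hN : 0 < C₀ * nn c δ R Y β * (2 : ℝ) ^ (-(c₂ * sz R Y β)) := by positivity
  have hmain := trunc volume (cg p u J ω) hmeas (fun z => ne_top_of_le_ne_top ENNReal.ofReal_ne_top (hb z)) hint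
    (C₀ * nn c δ R Y β * (2 : ℝ) ^ (-(c₂ * sz R Y β))) C₀ hN hC₀ (by
      intro lam Λ₁ hlam hΛ H hHm hHlam hHv hHI
      have hHE : H ⊆ E := by
        intro z hz
        refine (hsupp z ?_).1
        have h1 := hHlam z hz
        have h2 : 0 < ENNReal.ofReal lam := ENNReal.ofReal_pos.mpr hlam
        exact (lt_of_lt_of_le h2 h1).ne'
      exact hM R Y β u q i J sl fl D al lam Λ₁ E H ω hu1 hcfg' hcls hchg hD hE hal hal1 hRY
        ⟨hHm, hE.2.subset hHE⟩ hHE hHv hlam hΛ hHlam hHI)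
  have e1 : Kc C₀ * (C₀ * nn c δ R Y β * (2 : ℝ) ^ (-(c₂ * sz R Y β))) =
      Kc C₀ * C₀ * nn c δ R Y β * (2 : ℝ) ^ (-(c₂ * sz R Y β)) := by ring
  rw [← e1]
  exact hmain.2

end Pool.Agent.Helper94.ES
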